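import Pool.Agent.Helper909_ca.Extend

/-!
# Reversible number-conserving ternary cellular automata with the von Neumann
neighbourhood are trivial, in every dimension

States `{0, 1, 2}` are `Fin 3`, cells are `ℤ^d`, the neighbourhood is `{0, ±e_1, …, ±e_d}`.
Every number-conserving cellular automaton whose global map is a bijection (indeed,
merely injective on the configurations with finitely many nonzero cells) is the identity
or one of the `2 d` unit shifts.
-/

set_option linter.unusedSectionVars false

namespace Pool.Agent.Results.MP_944d6d_mp.TernaryReversible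

open Function Helper909CA

/-- The cells: `ℤ^d`. -/
abbrev Cell (d : ℕ) := Fin d → ℤ

/-- Configurations with states `0, 1, 2`. -/
abbrev Config (d : ℕ) := Cell d → Fin 3

/-- The von Neumann neighbourhood `{0, ±e_1, …, ±e_d}`. -/
def vonNeumann (d : ℕ) : Set (Cell d) :=
  {u | u = 0 ∨ ∃ i : Fin d, u = Pi.single i 1 ∨ u = -Pi.single i 1}

/-- Local rules `f : S^N → S`. -/
abbrev Rule (d : ℕ) := (vonNeumann d → Fin 3) → Fin 3

/-- The global map `F(x)_v = f((x_{v+u})_{u ∈ N})`. -/
def globalMap {d : ℕ} (f : Rule d) (x : Config d) : Config d :=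
  fun v => f fun u => x (v + u.1)

/-- Number conservation, periodic form: for every configuration with period `L i ≥ 1` in each
coordinate direction `i`, the sum of the states over one period is preserved. -/
def ConservesPeriodic {d : ℕ} (f : Rule d) : Prop :=
  ∀ L : Fin d → ℕ, (∀ i, 0 < L i) → ∀ x : Config d,
    (∀ (i : Fin d) (v : Cell d), x (v + Pi.single i (L i : ℤ)) = x v) →
    ∑ v ∈ Fintype.piFinset fun i => Finset.Ico (0 : ℤ) (L i), ((globalMap f x v : Fin 3) : ℕ) =
      ∑ v ∈ Fintype.piFinset fun i => Finset.Ico (0 : ℤ) (L i), ((x v : Fin 3) : ℕ)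

/-- Number conservation, finite form: for every configuration `x` with finitely many nonzero
cells, `F(x)` has finitely many nonzero cells and `∑_v F(x)_v = ∑_v x_v`. -/
def ConservesFinite {d : ℕ} (f : Rule d) : Prop :=
  ∀ x : Config d, (support x).Finite → (support (globalMap f x)).Finite ∧
    ∑ᶠ v, ((globalMap f x v : Fin 3) : ℕ) = ∑ᶠ v, ((x v : Fin 3) : ℕ)

/-- Reversibility: the global map is a bijection. -/
def Reversible {d : ℕ} (f : Rule d) : Prop := Bijective (globalMap f)

/-- Trivial automata: the identity and the shifts by `±e_i`. -/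
def Trivial {d : ℕ} (f : Rule d) : Prop :=
  (∀ x v, globalMap f x v = x v) ∨
    ∃ i : Fin d, (∀ x v, globalMap f x v = x (v + Pi.single i 1)) ∨
      (∀ x v, globalMap f x v = x (v - Pi.single i 1))

/-! ### Geometry of the neighbourhood -/

section geometry

variable {d : ℕ}

theorem single_dot (i : Fin d) (s : ℤ) (y : Cell d) :
    (Pi.single i s : Cell d) ⬝ᵥ y = s * y i := by
  rw [single_dotProduct]

theorem dot_neg_left (x y : Cell d) : (-x) ⬝ᵥ y = -(x ⬝ᵥ y) := neg_dotProduct x y

/-- the products of two elements of the neighbourhood -/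
theorem dot_cases {x y : Cell d} (hx : x ∈ vonNeumann d) (hy : y ∈ vonNeumann d) (hxy : x ≠ y) :
    x ⬝ᵥ y ≤ 0 ∧ (x ⬝ᵥ y ≤ -1 → x + y = 0) := by
  rcases hx with rfl | ⟨i, rfl | rfl⟩
  · rw [zero_dotProduct]; exact ⟨le_rfl, fun h => by norm_num at h⟩
  · rcases hy with rfl | ⟨j, rfl | rfl⟩
    · rw [dotProduct_zero]; exact ⟨le_rfl, fun h => by norm_num at h⟩
    · have hij : i ≠ j := by rintro rfl; exact hxy rfl
      rw [single_dot, Pi.single_eq_of_ne hij]; exact ⟨by norm_num, fun h => by norm_num at h⟩
    · rw [single_dot]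
      by_cases hij : i = j
      · subst hij
        rw [Pi.neg_apply, Pi.single_eq_same]
        exact ⟨by norm_num, fun _ => add_neg_cancel _⟩
      · rw [Pi.neg_apply, Pi.single_eq_of_ne hij]
        exact ⟨by norm_num, fun h => by norm_num at h⟩
  · rcases hy with rfl | ⟨j, rfl | rfl⟩
    · rw [dotProduct_zero]; exact ⟨le_rfl, fun h => by norm_num at h⟩
    · rw [dot_neg_left, single_dot]
      by_cases hij : i = j
      · subst hij
        rw [Pi.single_eq_same]
        exact ⟨by norm_num, fun _ => neg_add_cancel _⟩
      · rw [Pi.single_eq_of_ne hij]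
        exact ⟨by norm_num, fun h => by norm_num at h⟩
    · have hij : i ≠ j := by rintro rfl; exact hxy rfl
      rw [dot_neg_left, single_dot, Pi.neg_apply, Pi.single_eq_of_ne hij]
      exact ⟨by norm_num, fun h => by norm_num at h⟩

theorem dot_self_le {x : Cell d} (hx : x ∈ vonNeumann d) :
    x ⬝ᵥ x ≤ 1 ∧ (x ≠ 0 → x ⬝ᵥ x = 1) := by
  rcases hx with rfl | ⟨i, rfl | rfl⟩
  · rw [zero_dotProduct]; exact ⟨by norm_num, fun h => absurd rfl h⟩
  · rw [single_dot, Pi.single_eq_same]; exact ⟨by norm_num, fun _ => by norm_num⟩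
  · rw [dot_neg_left, single_dot, Pi.neg_apply, Pi.single_eq_same]
    exact ⟨by norm_num, fun _ => by norm_num⟩

theorem zero_mem : (0 : Cell d) ∈ vonNeumann d := Or.inl rfl

theorem neg_mem {a : Cell d} (ha : a ∈ vonNeumann d) : -a ∈ vonNeumann d := by
  rcases ha with rfl | ⟨i, rfl | rfl⟩
  · left; simp
  · right; exact ⟨i, Or.inr rfl⟩
  · right; exact ⟨i, Or.inl (neg_neg _)⟩

theorem coord_le {a : Cell d} (ha : a ∈ vonNeumann d) (j : Fin d) : -1 ≤ a j ∧ a j ≤ 1 := by
  rcases ha with rfl | ⟨i, rfl | rfl⟩
  · simp
  · by_cases h : j = i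
    · subst h; simp
    · rw [Pi.single_eq_of_ne h]; norm_num
  · by_cases h : j = i
    · subst h; simp
    · rw [Pi.neg_apply, Pi.single_eq_of_ne h]; norm_num

theorem geo (d : ℕ) : Geo (vonNeumann d) where
  fin := by
    have : vonNeumann d = {0} ∪ (Set.range (fun i : Fin d => (Pi.single i 1 : Cell d)) ∪
        Set.range (fun i : Fin d => (-Pi.single i 1 : Cell d))) := by
      ext u
      constructor
      · rintro (h | ⟨i, h | h⟩)
        · exact Or.inl h
        · exact Or.inr (Or.inl ⟨i, h.symm⟩)
        · exact Or.inr (Or.inr ⟨i, h.symm⟩)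
      · rintro (h | ⟨i, h⟩ | ⟨i, h⟩)
        · exact Or.inl h
        · exact Or.inr ⟨i, Or.inl h.symm⟩
        · exact Or.inr ⟨i, Or.inr h.symm⟩
    rw [this]
    exact (Set.finite_singleton _).union ((Set.finite_range _).union (Set.finite_range _))
  zero_mem := zero_mem
  neg_mem := neg_mem
  sidon := by
    intro a b c e ha hb hc he h
    by_cases hab : a = b
    · left
      subst hab
      exact ⟨rfl, add_left_cancel h⟩
    · by_cases hac : a = c
      · right; left
        subst hac
        refine ⟨rfl, ?_⟩
        rw [add_comm b a] at h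
        exact add_left_cancel h
      · right; right
        by_cases ha0 : a = 0
        · by_cases he0 : e = 0
          · rw [ha0, he0, add_zero]
          · exfalso
            have heb : e ≠ b := by
              rintro rfl
              rw [add_comm] at h
              exact hac (add_left_cancel h)
            have hec : e ≠ c := by
              rintro rfl
              exact hab (add_right_cancel h)
            have h1 := congrArg (fun z => e ⬝ᵥ z) h
            simp only [dotProduct_add] at h1
            have h2 := (dot_cases he hb heb).1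
            have h3 := (dot_cases he hc hec).1
            have h4 := (dot_self_le he).2 he0
            rw [ha0, dotProduct_zero] at h1
            linarith
        · have h1 := congrArg (fun z => a ⬝ᵥ z) h
          simp only [dotProduct_add] at h1
          have h2 := (dot_cases ha hb hab).1
          have h3 := (dot_cases ha hc hac).1
          have h4 := (dot_self_le ha).2 ha0
          have hae : a ≠ e := by
            rintro rfl
            linarith
          exact (dot_cases ha he hae).2 (by linarith)
  two_not := by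
    intro e he he0 h
    have h1 := (dot_self_le he).2 he0
    have h2 := (dot_self_le h).1
    simp only [dotProduct_add, add_dotProduct] at h2
    linarith
  three_not := by
    intro e he he0 h
    have h1 := (dot_self_le he).2 he0
    have h2 := (dot_self_le h).1
    simp only [dotProduct_add, add_dotProduct] at h2
    linarith
  tf := by
    intro e n h
    exact smul_eq_zero.mp h

end geometry

/-! ### The dynamical hypotheses -/

section dynamics

variable {d : ℕ} (f : Rule d)

theorem globalMap_loc (x y : Config d) (v : Cell d)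
    (h : ∀ u ∈ vonNeumann d, x (v + u) = y (v + u)) : globalMap f x v = globalMap f y v := by
  unfold globalMap
  congr 1
  funext u
  exact h u.1 u.2

theorem globalMap_eqv (x : Config d) (t v : Cell d) :
    globalMap f (fun z => x (z + t)) v = globalMap f x (v + t) := by
  unfold globalMap
  congr 1
  funext u
  show x (v + u.1 + t) = x (v + t + u.1)
  congr 1
  abel

theorem cast_finsum {x : Config d} (hx : (support x).Finite) :
    ((∑ᶠ v, ((x v : Fin 3) : ℕ) : ℕ) : ℤ) = ∑ᶠ v, (((x v : Fin 3) : ℕ) : ℤ) := by
  have h : (support fun v => ((x v : Fin 3) : ℕ)).Finite := by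
    apply hx.subset
    intro v hv h
    exact hv (by simp [h])
  have := map_finsum (Nat.castAddMonoidHom ℤ) (f := fun v => ((x v : Fin 3) : ℕ)) h
  simpa using this

theorem consZ_of_finite (h : ConservesFinite f) (x : Config d) (hx : (support x).Finite) :
    ∑ᶠ v, (((globalMap f x v : Fin 3) : ℕ) : ℤ) = ∑ᶠ v, (((x v : Fin 3) : ℕ) : ℤ) := by
  obtain ⟨h1, h2⟩ := h x hx
  rw [← cast_finsum hx, ← cast_finsum h1, h2]

theorem zero_of_finite (h : ConservesFinite f) (v : Cell d) : globalMap f (fun _ => 0) v = 0 := by
  have hx : (support (fun _ => 0 : Config d)).Finite := by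
    rw [support_fun_zero]; exact Set.finite_empty
  obtain ⟨h1, _⟩ := h _ hx
  have h2 := consZ_of_finite f h _ hx
  have h3 : ∑ᶠ v, (((globalMap f (fun _ => 0) v : Fin 3) : ℕ) : ℤ) = 0 := by
    rw [h2]; simp
  have h4 : (support fun v => (((globalMap f (fun _ => 0) v : Fin 3) : ℕ) : ℤ)).Finite := by
    apply h1.subset
    intro v hv h
    exact hv (by simp [h])
  have h5 := eq_zero_of_sum _ h4 (fun v => by positivity) h3 v
  exact_mod_cast h5

theorem zero_of_periodic (h : ConservesPeriodic f) (v : Cell d) :
    globalMap f (fun _ => 0) v = 0 := by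
  have h1 := h (fun _ => 1) (fun _ => by norm_num) (fun _ => 0) (fun _ _ => rfl)
  have h2 : ∑ v ∈ Fintype.piFinset fun _ : Fin d => Finset.Ico (0 : ℤ) ((1 : ℕ) : ℤ),
      ((globalMap f (fun _ => 0) v : Fin 3) : ℕ) = 0 := by
    rw [h1]; simp
  rw [Finset.sum_eq_zero_iff] at h2
  have h3 := h2 0 (by simp)
  have h4 : globalMap f (fun _ => 0) v = globalMap f (fun _ => 0) 0 := by
    unfold globalMap; rfl
  rw [h4]
  apply Fin.ext
  exact h3

theorem consZ_of_periodic (h : ConservesPeriodic f) (x : Config d) (hx : (support x).Finite) :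
    ∑ᶠ v, (((globalMap f x v : Fin 3) : ℕ) : ℤ) = ∑ᶠ v, (((x v : Fin 3) : ℕ) : ℤ) := by
  have hzero := zero_of_periodic f h
  -- a bound on the support
  obtain ⟨M, hM⟩ : ∃ M : ℕ, ∀ z, x z ≠ 0 → ∀ i, -(M : ℤ) ≤ z i ∧ z i ≤ M := by
    refine ⟨hx.toFinset.sup (fun z => Finset.univ.sup (fun i => (z i).natAbs)), ?_⟩
    intro z hz i
    have h1 : z ∈ hx.toFinset := by simpa using hz
    have h2 : (z i).natAbs ≤ Finset.univ.sup (fun i => (z i).natAbs) :=
      Finset.le_sup (f := fun i => (z i).natAbs) (Finset.mem_univ i)
    have h3 := Finset.le_sup (f := fun z : Cell d => Finset.univ.sup (fun i => (z i).natAbs)) h1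
    have h4 := le_trans h2 h3
    omega
  set t : Cell d := fun _ => -((M : ℤ) + 1) with ht
  set x1 : Config d := fun z => x (z + t) with hx1
  have hx1s : ∀ z, x1 z ≠ 0 → ∀ i, 1 ≤ z i ∧ z i ≤ 2 * M + 1 := by
    intro z hz i
    have := hM _ hz i
    simp only [ht, Pi.add_apply] at this
    constructor <;> linarith [this.1, this.2]
  set L : ℕ := 2 * M + 3 with hL
  set y : Config d := fun z => x1 (fun i => z i % (L : ℤ)) with hy
  set B := Fintype.piFinset fun _ : Fin d => Finset.Ico (0 : ℤ) (L : ℤ) with hB
  have hLpos : (0 : ℤ) < L := by rw [hL]; push_cast; positivity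
  have hmemB : ∀ v, v ∈ B ↔ ∀ i, 0 ≤ v i ∧ v i < L := by
    intro v
    simp [hB, Fintype.mem_piFinset, Finset.mem_Ico]
  have hcons := h (fun _ => L) (fun _ => by omega) y (by
    intro i v
    simp only [hy]
    congr 1
    funext j
    by_cases hj : j = i
    · subst hj
      simp
    · rw [Pi.add_apply, Pi.single_eq_of_ne hj, add_zero])
  -- on the box `y` is `x1`
  have hy1 : ∀ v ∈ B, y v = x1 v := by
    intro v hv
    rw [hmemB] at hv
    simp only [hy]
    congr 1
    funext i
    exact Int.emod_eq_of_lt (hv i).1 (hv i).2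
  have hFy : ∀ v ∈ B, globalMap f y v = globalMap f x1 v := by
    intro v hv
    rw [hmemB] at hv
    apply globalMap_loc
    intro u hu
    by_cases hin : ∀ i, 0 ≤ (v + u) i ∧ (v + u) i < L
    · exact hy1 _ ((hmemB _).mpr hin)
    · push Not at hin
      obtain ⟨i, hi⟩ := hin
      have hui := coord_le hu i
      have hvi := hv i
      have hcase : (v + u) i = -1 ∨ (v + u) i = L := by
        rw [Pi.add_apply] at hi ⊢
        by_cases h0 : 0 ≤ v i + u i
        · right
          have := hi h0
          omega
        · left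
          omega
      have e1 : x1 (v + u) = 0 := by
        by_contra hne
        have := hx1s _ hne i
        rcases hcase with hc | hc
        · rw [hc] at this; omega
        · rw [hc] at this; rw [hL] at this; push_cast at this; omega
      have e2 : y (v + u) = 0 := by
        by_contra hne
        have : 1 ≤ (v + u) i % (L : ℤ) ∧ (v + u) i % (L : ℤ) ≤ 2 * M + 1 := hx1s _ hne i
        rcases hcase with hc | hc
        · rw [hc] at this
          have h3 : (-1 : ℤ) % (L : ℤ) = L - 1 := by
            have : (-1 : ℤ) = (L - 1) + L * (-1) := by ring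
            rw [this, Int.add_mul_emod_self_left]
            exact Int.emod_eq_of_lt (by omega) (by omega)
          rw [h3, hL] at this
          push_cast at this
          omega
        · rw [hc, Int.emod_self] at this
          omega
      rw [e1, e2]
  have hsumx : ∑ v ∈ B, ((x1 v : Fin 3) : ℕ) = ∑ᶠ v, ((x1 v : Fin 3) : ℕ) := by
    symm
    apply finsum_eq_sum_of_support_subset
    intro v hv
    have hv' : x1 v ≠ 0 := fun h => hv (by simp [h])
    have := hx1s v hv'
    rw [Finset.mem_coe, hmemB]
    intro i
    have := this i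
    rw [hL]; push_cast; omega
  have hsumF : ∑ v ∈ B, ((globalMap f x1 v : Fin 3) : ℕ) =
      ∑ᶠ v, ((globalMap f x1 v : Fin 3) : ℕ) := by
    symm
    apply finsum_eq_sum_of_support_subset
    intro v hv
    have hv' : globalMap f x1 v ≠ 0 := fun h => hv (by simp [h])
    have hex : ∃ u ∈ vonNeumann d, x1 (v + u) ≠ 0 := by
      by_contra hno
      push Not at hno
      apply hv'
      rw [globalMap_loc f x1 (fun _ => 0) v hno, hzero]
    obtain ⟨u, hu, hne⟩ := hex
    have h1 := hx1s _ hne
    rw [Finset.mem_coe, hmemB]
    intro i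
    have h2 := h1 i
    have h3 := coord_le hu i
    rw [Pi.add_apply] at h2
    rw [hL]; push_cast; omega
  have hcons' : ∑ v ∈ B, ((globalMap f y v : Fin 3) : ℕ) = ∑ v ∈ B, ((y v : Fin 3) : ℕ) := hcons
  have hF' : ∑ v ∈ B, ((globalMap f y v : Fin 3) : ℕ) =
      ∑ v ∈ B, ((globalMap f x1 v : Fin 3) : ℕ) :=
    Finset.sum_congr rfl (fun v hv => by rw [hFy v hv])
  have hY' : ∑ v ∈ B, ((y v : Fin 3) : ℕ) = ∑ v ∈ B, ((x1 v : Fin 3) : ℕ) :=
    Finset.sum_congr rfl (fun v hv => by rw [hy1 v hv])
  rw [hF', hY', hsumF, hsumx] at hcons'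
  -- translate back
  have hx1fin : (support x1).Finite := by
    apply (hx.image (fun z => z - t)).subset
    intro z hz
    exact ⟨z + t, hz, by simp⟩
  have hFx1fin : (support (globalMap f x1)).Finite := by
    apply B.finite_toSet.subset
    intro v hv
    have hex : ∃ u ∈ vonNeumann d, x1 (v + u) ≠ 0 := by
      by_contra hno
      push Not at hno
      apply hv
      rw [globalMap_loc f x1 (fun _ => 0) v hno, hzero]
    obtain ⟨u, hu, hne⟩ := hex
    have h1 := hx1s _ hne
    rw [Finset.mem_coe, hmemB]
    intro i
    have h2 := h1 i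
    have h3 := coord_le hu i
    rw [Pi.add_apply] at h2
    rw [hL]; push_cast; omega
  have c1 := cast_finsum hx1fin
  have c2 := cast_finsum hFx1fin
  have hZ : ∑ᶠ v, (((globalMap f x1 v : Fin 3) : ℕ) : ℤ) = ∑ᶠ v, (((x1 v : Fin 3) : ℕ) : ℤ) := by
    rw [← c1, ← c2, hcons']
  have s1 : ∑ᶠ v, (((globalMap f x1 v : Fin 3) : ℕ) : ℤ) =
      ∑ᶠ v, (((globalMap f x v : Fin 3) : ℕ) : ℤ) := by
    rw [← finsum_comp_equiv (Equiv.addRight t)
      (f := fun v => (((globalMap f x v : Fin 3) : ℕ) : ℤ))]
    apply finsum_congr
    intro v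
    rw [hx1, globalMap_eqv]
    rfl
  have s2 : ∑ᶠ v, (((x1 v : Fin 3) : ℕ) : ℤ) = ∑ᶠ v, (((x v : Fin 3) : ℕ) : ℤ) := by
    rw [← finsum_comp_equiv (Equiv.addRight t) (f := fun v => (((x v : Fin 3) : ℕ) : ℤ))]
    rfl
  rw [← s1, ← s2, hZ]

end dynamics

/-- **Theorem.** In every dimension `d`, a number-conserving cellular automaton with states
`{0, 1, 2}` and the von Neumann neighbourhood (number conservation in the periodic or in the
finite form) which is reversible is the identity or one of the `2 d` unit shifts.
Reversibility may even be weakened to injectivity of the global map on the configurations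
with finitely many nonzero cells. -/
theorem result (d : ℕ) (f : Rule d) (hcons : ConservesPeriodic f ∨ ConservesFinite f)
    (hrev : Reversible f ∨ Set.InjOn (globalMap f) {x | (support x).Finite}) :
    Trivial f := by
  have hinj : Set.InjOn (globalMap f) {x | (support x).Finite} := by
    rcases hrev with h | h
    · exact h.1.injOn
    · exact h
  have hF : Cons (vonNeumann d) (globalMap f) :=
    { loc := globalMap_loc f
      eqv := globalMap_eqv f
      zero := by
        rcases hcons with h | h
        · exact zero_of_periodic f h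
        · exact zero_of_finite f h
      cons := by
        intro x hx
        rcases hcons with h | h
        · exact consZ_of_periodic f h x hx
        · exact consZ_of_finite f h x hx
      inj := fun x y hx hy h => hinj hx hy h }
  obtain ⟨a, ha, hm⟩ := main (geo d) hF
  rcases ha with rfl | ⟨i, rfl | rfl⟩
  · left
    intro x v
    rw [hm, sub_zero]
  · right
    exact ⟨i, Or.inr hm⟩
  · right
    refine ⟨i, Or.inl ?_⟩
    intro x v
    rw [hm, sub_neg_eq_add]

end Pool.Agent.Results.MP_944d6d_mp.TernaryReversible
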